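import Pool.Agent.Helper2.AV.ADefs
import Mathlib.RingTheory.SimpleModule.Isotypic

/-!
MP_b8862a_ag, AllTypes, block DA-b: the double commutant theorem, irreducible submodules of a
block are isomorphic, and a block is a full matrix algebra with multiplicity.
-/

set_option linter.unusedSectionVars false
set_option linter.unusedVariables false

open Module

namespace AV

open MTP UN

namespace DAb

variable {K : Type*} [Field K] {V : Type*} [AddCommGroup V] [Module K V] [FiniteDimensional K V]
variable {A : Subalgebra K (Module.End K V)} {ε ε' : Module.End K V} {W W' : Submodule K V}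

lemma smul_eq (a : A) (v : V) : a • v = (a : Module.End K V) v := rfl

/-- A stable subspace as a module over the algebra. -/
def sub (hW : Stab (A : Set (Module.End K V)) W) : Submodule A V where
  carrier := W
  add_mem' := W.add_mem
  zero_mem' := W.zero_mem
  smul_mem' := fun a v hv => hW a a.2 v hv

lemma mem_sub (hW : Stab (A : Set (Module.End K V)) W) {v : V} : v ∈ sub hW ↔ v ∈ W := Iff.rfl

/-- A module over the algebra as a subspace. -/
def res (U : Submodule A V) : Submodule K V where
  carrier := U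
  add_mem' := U.add_mem
  zero_mem' := U.zero_mem
  smul_mem' := fun c v hv => by
    have h := U.smul_mem (algebraMap K A c) hv
    exact h

lemma mem_res (U : Submodule A V) {v : V} : v ∈ res U ↔ v ∈ U := Iff.rfl

lemma res_stab (U : Submodule A V) : Stab (A : Set (Module.End K V)) (res U) :=
  fun a ha v hv => U.smul_mem (⟨a, ha⟩ : A) hv

/-- Operators commuting with the algebra. -/
def toA (T : Module.End K V) (hT : ∀ a ∈ A, T * a = a * T) : V →ₗ[A] V where
  toFun := T
  map_add' := T.map_add
  map_smul' := fun a v => by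
    have h := congrArg (fun φ : Module.End K V => φ v) (hT a a.2)
    exact h

/-- Operators commuting with the algebra. -/
def ofA (T : V →ₗ[A] V) : Module.End K V where
  toFun := T
  map_add' := T.map_add
  map_smul' := fun c v => by
    have h := T.map_smul (algebraMap K A c) v
    exact h

lemma ofA_comm (T : V →ₗ[A] V) : ∀ a ∈ A, ofA T * a = a * ofA T := by
  intro a ha
  ext v
  exact T.map_smul (⟨a, ha⟩ : A) v

lemma semisimple (h : SS (A : Set (Module.End K V))) : IsSemisimpleModule A V := by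
  rw [isSemisimpleModule_iff]
  constructor
  intro U
  obtain ⟨U', hU', hc⟩ := h (res U) (res_stab U)
  refine ⟨sub hU', ?_⟩
  rw [isCompl_iff, disjoint_iff, codisjoint_iff] at hc ⊢
  constructor
  · rw [eq_bot_iff]
    rintro v ⟨h1, h2⟩
    have h3 : v ∈ res U ⊓ U' := ⟨h1, h2⟩
    rw [hc.1] at h3
    exact h3
  · rw [eq_top_iff]
    rintro v -
    have h3 : v ∈ res U ⊔ U' := by rw [hc.2]; trivial
    obtain ⟨a, ha, b, hb, rfl⟩ := Submodule.mem_sup.1 h3
    exact Submodule.add_mem_sup (S := U) (T := sub hU') ha hb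

lemma simple (hW : Irr (A : Set (Module.End K V)) W) : IsSimpleModule A (sub hW.st) := by
  rw [isSimpleModule_iff_isAtom]
  constructor
  · intro h
    apply hW.ne
    rw [eq_bot_iff]
    intro v hv
    have h1 : v ∈ sub hW.st := hv
    rw [h] at h1
    exact h1
  · intro U hU
    rcases hW.irr (res U) (fun v hv => hU.le hv) (res_stab U) with h | h
    · rw [eq_bot_iff]
      intro v hv
      have h1 : v ∈ res U := hv
      rw [h] at h1
      exact h1
    · exfalso
      apply hU.not_ge
      intro v hv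
      have h1 : v ∈ W := hv
      rw [← h] at h1
      exact h1

/-- An equivariant projection. -/
lemma exists_prj (h : SS (A : Set (Module.End K V))) (hW : Stab (A : Set (Module.End K V)) W) :
    ∃ P : Module.End K V, (∀ a ∈ A, P * a = a * P) ∧ (∀ w ∈ W, P w = w) ∧ ∀ v, P v ∈ W := by
  obtain ⟨U', hU', hc⟩ := h W hW
  refine ⟨W.subtype ∘ₗ W.projectionOnto U' hc, ?_, ?_, ?_⟩
  · intro a ha
    ext v
    have h1 : v ∈ W ⊔ U' := by rw [hc.sup_eq_top]; trivial
    obtain ⟨x, hx, y, hy, rfl⟩ := Submodule.mem_sup.1 h1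
    simp only [Module.End.mul_apply, LinearMap.comp_apply, Submodule.subtype_apply, map_add]
    have e1 := Submodule.projectionOnto_apply_left hc ⟨x, hx⟩
    have e2 := (Submodule.projectionOnto_apply_eq_zero_iff hc).2 hy
    have e3 := Submodule.projectionOnto_apply_left hc ⟨a x, hW a ha x hx⟩
    have e4 := (Submodule.projectionOnto_apply_eq_zero_iff hc).2 (hU' a ha y hy)
    simp only at e1 e3
    rw [e1, e2, e3, e4]
    simp
  · intro w hw
    have e1 := Submodule.projectionOnto_apply_left hc ⟨w, hw⟩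
    simp only [LinearMap.comp_apply, Submodule.subtype_apply]
    simp only at e1
    rw [e1]
  · intro v
    exact (W.projectionOnto U' hc v).2

lemma exists_irr {U : Submodule K V} (hU : Stab (A : Set (Module.End K V)) U) (h0 : U ≠ ⊥) :
    ∃ W, Irr (A : Set (Module.End K V)) W ∧ W ≤ U := by
  obtain ⟨X, ⟨h1, h2, h3⟩, hmin⟩ := WellFounded.has_min (wellFounded_lt)
    {X : Submodule K V | X ≠ ⊥ ∧ Stab (A : Set (Module.End K V)) X ∧ X ≤ U} ⟨U, h0, hU, le_rfl⟩
  refine ⟨X, ⟨h1, h2, ?_⟩, h3⟩
  intro Y hY hYs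
  by_cases hY0 : Y = ⊥
  · exact Or.inl hY0
  · right
    by_contra hne
    exact hmin Y ⟨hY0, hYs, hY.trans h3⟩ (lt_of_le_of_ne hY hne)

/-- Transport of operators to a copy of `W`. -/
lemma block_one {i : W →ₗ[K] V} {s : V →ₗ[K] W} {P x : Module.End K V}
    (hsi : s ∘ₗ i = LinearMap.id) (his : i ∘ₗ s = P) (hx : x ∘ₗ i = i ∘ₗ Rw W x) :
    LinearMap.trace K V (x * P) = LinearMap.trace K W (Rw W x) ∧
      MTP.rk (x * P) = MTP.rk (Rw W x) := by
  have h1 : x * P = i ∘ₗ (Rw W x ∘ₗ s) := by
    rw [← his]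
    change x ∘ₗ (i ∘ₗ s) = _
    rw [← LinearMap.comp_assoc, hx, LinearMap.comp_assoc]
  constructor
  · rw [h1, LinearMap.trace_comp_comm', LinearMap.comp_assoc, hsi, LinearMap.comp_id]
  · have hs : LinearMap.range s = ⊤ := by
      rw [LinearMap.range_eq_top]
      intro w
      exact ⟨i w, LinearMap.congr_fun hsi w⟩
    have hi : Function.Injective i := by
      intro a b hab
      have ha := LinearMap.congr_fun hsi a
      have hb := LinearMap.congr_fun hsi b
      simp only [LinearMap.comp_apply, LinearMap.id_apply] at ha hb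
      rw [← ha, ← hb, hab]
    unfold MTP.rk
    rw [h1, LinearMap.range_comp, LinearMap.range_comp_of_range_eq_top _ hs]
    exact (Submodule.equivMapOfInjective i hi (LinearMap.range (Rw W x))).finrank_eq.symm

end DAb

variable {K : Type*} [Field K] {V : Type*} [AddCommGroup V] [Module K V] [FiniteDimensional K V]
variable {A : Subalgebra K (Module.End K V)} {ε ε' : Module.End K V} {W W' : Submodule K V}

open DAb

/-- The double commutant theorem. -/
theorem SS.mem_of_comm (h : SS (A : Set (Module.End K V))) {f : Module.End K V}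
    (hf : ∀ T : Module.End K V, (∀ a ∈ A, T * a = a * T) → f * T = T * f) : f ∈ A := by
  classical
  have := semisimple h
  let F : Module.End (Module.End A V) V :=
    { toFun := f
      map_add' := f.map_add
      map_smul' := fun T v => by
        have h1 := congrArg (fun φ : Module.End K V => φ v) (hf (ofA T) (ofA_comm T))
        exact h1 }
  let b := Module.finBasis K V
  obtain ⟨r, hr⟩ := jacobson_density F (Finset.univ.image b)
  have h2 : f = (r : Module.End K V) := by
    apply b.ext
    intro i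
    exact hr (b i) (Finset.mem_image_of_mem _ (Finset.mem_univ i))
  rw [h2]
  exact r.2

/-- Two irreducible submodules of the same block are isomorphic. -/
theorem SS.exists_iso (h : SS (A : Set (Module.End K V))) (hε : Bl A ε)
    (hW : Irr (A : Set (Module.End K V)) W) (hWε : InB ε W)
    (hW' : Irr (A : Set (Module.End K V)) W') (hW'ε : InB ε W') :
    ∃ T : Module.End K V, (∀ a ∈ A, T * a = a * T) ∧ (∀ w ∈ W, T w ∈ W') ∧
      (∀ w ∈ W, T w = 0 → w = 0) ∧ ∀ w' ∈ W', ∃ w ∈ W, T w = w' := by
  have hss := semisimple h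
  have hsW := simple hW
  have hsW' := simple hW'
  set c := isotypicComponent A V (sub hW.st) with hc
  set c' := sSup (isotypicComponents A V \ {c}) with hc'
  have hmem : c ∈ isotypicComponents A V := ⟨sub hW.st, hsW, rfl⟩
  have hcompl : IsCompl c c' := by
    rw [isCompl_iff]
    refine ⟨sSupIndep_isotypicComponents A V hmem, ?_⟩
    rw [codisjoint_iff, eq_top_iff, ← sSup_isotypicComponents A V]
    apply sSup_le
    intro d hd
    by_cases hdc : d = c
    · rw [hdc]
      exact le_sup_left
    · have hd' : d ∈ isotypicComponents A V \ {c} := ⟨hd, hdc⟩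
      exact (le_sSup hd').trans le_sup_right
  have hfc : c.IsFullyInvariant := Submodule.IsFullyInvariant.of_mem_isotypicComponents hmem
  have hfc' : c'.IsFullyInvariant := by
    intro f
    apply sSup_le
    intro d hd
    exact (Submodule.IsFullyInvariant.of_mem_isotypicComponents hd.1 f).trans
      (Submodule.comap_mono (le_sSup hd))
  -- the projection
  set e : V →ₗ[A] V := c.subtype ∘ₗ c.projectionOnto c' hcompl with he
  have he1 : ∀ v ∈ c, e v = v := by
    intro v hv
    have e1 := Submodule.projectionOnto_apply_left hcompl ⟨v, hv⟩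
    rw [he, LinearMap.comp_apply]
    simp only at e1
    rw [e1]
    rfl
  have he2 : ∀ v ∈ c', e v = 0 := by
    intro v hv
    rw [he, LinearMap.comp_apply, (Submodule.projectionOnto_apply_eq_zero_iff hcompl).2 hv,
      map_zero]
  have he3 : ∀ v, e v ∈ c := fun v => (c.projectionOnto c' hcompl v).2
  have hmemA : ofA e ∈ A := by
    apply h.mem_of_comm
    intro T hT
    ext v
    have h1 : v ∈ c ⊔ c' := by rw [hcompl.sup_eq_top]; trivial
    obtain ⟨x, hx, y, hy, rfl⟩ := Submodule.mem_sup.1 h1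
    have e1 : toA T hT x ∈ c := hfc (toA T hT) hx
    have e2 : toA T hT y ∈ c' := hfc' (toA T hT) hy
    change e (T (x + y)) = T (e (x + y))
    rw [map_add T, map_add e, map_add e, he1 x hx, he2 y hy, add_zero]
    have e3 := he1 _ e1
    have e4 := he2 _ e2
    change e (T x) = T x at e3
    change e (T y) = 0 at e4
    rw [e3, e4, add_zero]
  have hidem : ofA e * ofA e = ofA e := by
    ext v
    exact he1 _ (he3 v)
  obtain ⟨w, hw, hw0⟩ := Submodule.exists_mem_ne_zero_of_ne_bot hW.ne
  have hWc : ∀ v ∈ W, v ∈ c := fun v hv => Submodule.le_isotypicComponent (sub hW.st) hv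
  have heε : ofA e * ε = ε := by
    rcases hε.min (ofA e) hmemA (ofA_comm e) hidem with h1 | h1
    · exfalso
      apply hw0
      have h2 := congrArg (fun φ : Module.End K V => φ w) h1
      simp only [Module.End.mul_apply, LinearMap.zero_apply] at h2
      rw [hWε w hw] at h2
      change e w = 0 at h2
      rw [he1 w (hWc w hw)] at h2
      exact h2
    · exact h1
  have hW'c : sub hW'.st ≤ c := by
    intro v hv
    have h2 := congrArg (fun φ : Module.End K V => φ v) heε
    simp only [Module.End.mul_apply] at h2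
    rw [hW'ε v hv] at h2
    change e v = v at h2
    rw [← h2]
    exact he3 v
  have hiso := (isIsotypicOfType_submodule_iff.1
    (IsIsotypicOfType.isotypicComponent A V (sub hW.st))) (sub hW'.st) hW'c
  obtain ⟨φ⟩ := hiso
  obtain ⟨P, hP, hP1, hP2⟩ := DAb.exists_prj h hW.st
  let PW : V →ₗ[A] (sub hW.st) := (toA P hP).codRestrict (sub hW.st) hP2
  have hPW : ∀ (w : V) (hw : w ∈ W), PW w = ⟨w, hw⟩ := fun w hw => Subtype.ext (hP1 w hw)
  refine ⟨ofA ((sub hW'.st).subtype ∘ₗ φ.symm.toLinearMap ∘ₗ PW), ofA_comm _, ?_, ?_, ?_⟩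
  · intro w hw
    exact (φ.symm (PW w)).2
  · intro w hw hTw
    have h1 : ((φ.symm (PW w) : sub hW'.st) : V) = 0 := hTw
    have h2 : φ.symm (PW w) = 0 := Subtype.ext h1
    rw [LinearEquiv.map_eq_zero_iff, hPW w hw] at h2
    exact congrArg Subtype.val h2
  · intro w' hw'
    refine ⟨φ ⟨w', hw'⟩, (φ ⟨w', hw'⟩).2, ?_⟩
    change ((φ.symm (PW (φ ⟨w', hw'⟩ : sub hW.st)) : sub hW'.st) : V) = w'
    rw [hPW _ (φ ⟨w', hw'⟩).2]
    have h3 : (⟨((φ ⟨w', hw'⟩ : sub hW.st) : V), (φ ⟨w', hw'⟩).2⟩ : sub hW.st) =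
      φ ⟨w', hw'⟩ := rfl
    rw [h3, LinearEquiv.symm_apply_apply]

namespace DAb

/-- The multiplicity. -/
lemma mult_aux (h : SS (A : Set (Module.End K V))) (hε : Bl A ε)
    (hW : Irr (A : Set (Module.End K V)) W) (hWε : InB ε W) (n : ℕ) :
    ∀ Q : Module.End K V, MTP.rk Q ≤ n → (∀ a ∈ A, Q * a = a * Q) → Q * Q = Q → Q * ε = Q →
      ∃ k : ℕ, ∀ x ∈ Ae A ε, LinearMap.trace K V (x * Q) = k * LinearMap.trace K W (Rw W x) ∧
        MTP.rk (x * Q) = k * MTP.rk (Rw W x) := by
  induction n with
  | zero =>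
    intro Q hQ hc hi hQε
    have h0 : Q = 0 := by
      rw [← MTP.rk_eq_zero]
      omega
    refine ⟨0, fun x hx => ?_⟩
    rw [h0, mul_zero]
    constructor
    · simp
    · rw [MTP.rk_eq_zero.2 rfl, zero_mul]
  | succ n ih =>
    intro Q hQ hc hi hQε
    by_cases h0 : Q = 0
    · exact ih Q (by rw [h0, MTP.rk_eq_zero.2 rfl]; omega) hc hi hQε
    -- an irreducible submodule of the image
    have hst : Stab (A : Set (Module.End K V)) (LinearMap.range Q) := by
      rintro a ha _ ⟨v, rfl⟩
      refine ⟨a v, ?_⟩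
      exact congrArg (fun φ : Module.End K V => φ v) (hc a ha)
    obtain ⟨U, hU, hUQ⟩ := exists_irr hst (by rwa [Ne, LinearMap.range_eq_bot])
    obtain ⟨P, hP, hP1, hP2⟩ := DAb.exists_prj h hU.st
    have hQu : ∀ u ∈ U, Q u = u := by
      intro u hu
      obtain ⟨v, rfl⟩ := hUQ hu
      exact congrArg (fun φ : Module.End K V => φ v) hi
    have hεQ : ε * Q = Q := by rw [← hc ε hε.mem, hQε]
    have hUε : InB ε U := by
      intro u hu
      have h1 := congrArg (fun φ : Module.End K V => φ u) hεQ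
      simp only [Module.End.mul_apply] at h1
      rwa [hQu u hu] at h1
    obtain ⟨T, hT, hT1, hT2, hT3⟩ := h.exists_iso hε hW hWε hU hUε
    set P₀ := P * Q with hP₀
    have hQP : Q * P = P := by
      ext v
      exact hQu _ (hP2 v)
    have hPP : P * P = P := by
      ext v
      exact hP1 _ (hP2 v)
    have hP₀P₀ : P₀ * P₀ = P₀ := by
      rw [hP₀, mul_assoc, ← mul_assoc Q, hQP, ← mul_assoc, hPP]
    have hP₀Q : P₀ * Q = P₀ := by rw [hP₀, mul_assoc, hi]
    have hQP₀ : Q * P₀ = P₀ := by rw [hP₀, ← mul_assoc, hQP]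
    have hP₀c : ∀ a ∈ A, P₀ * a = a * P₀ := by
      intro a ha
      rw [hP₀, mul_assoc, hc a ha, ← mul_assoc, hP a ha, mul_assoc]
    have hP₀u : ∀ u ∈ U, P₀ u = u := by
      intro u hu
      change P (Q u) = u
      rw [hQu u hu, hP1 u hu]
    have hP₀m : ∀ v, P₀ v ∈ U := fun v => hP2 _
    -- the maps
    let i : W →ₗ[K] V := T ∘ₗ W.subtype
    have hi0 : Function.Injective i := by
      rw [← LinearMap.ker_eq_bot, LinearMap.ker_eq_bot']
      intro w hw
      exact Subtype.ext (hT2 w w.2 hw)
    have hr : ∀ v, P₀ v ∈ LinearMap.range i := by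
      intro v
      obtain ⟨w, hw, hw'⟩ := hT3 _ (hP₀m v)
      exact ⟨⟨w, hw⟩, hw'⟩
    let s : V →ₗ[K] W := (LinearEquiv.ofInjective i hi0).symm.toLinearMap ∘ₗ
      P₀.codRestrict (LinearMap.range i) hr
    have his : i ∘ₗ s = P₀ := by
      ext v
      have h1 := LinearEquiv.apply_symm_apply (LinearEquiv.ofInjective i hi0) ⟨P₀ v, hr v⟩
      have h2 := congrArg Subtype.val h1
      exact h2
    have hsi : s ∘ₗ i = LinearMap.id := by
      ext w
      apply congrArg
      apply hi0
      have h1 := LinearMap.congr_fun his (i w)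
      simp only [LinearMap.comp_apply] at h1 ⊢
      rw [h1]
      exact hP₀u _ (hT1 w w.2)
    have hxi : ∀ x ∈ Ae A ε, x ∘ₗ i = i ∘ₗ Rw W x := by
      intro x hx
      ext w
      have h1 := congrArg (fun φ : Module.End K V => φ w) (hT x hx.1)
      simp only [Module.End.mul_apply] at h1
      change x (T w) = T (Rw W x w : W)
      rw [Rw_coe (fun w hw => hW.st x hx.1 w hw), h1]
    -- the rest
    have hQ' : MTP.rk (Q - P₀) < MTP.rk Q := by
      have h1 := MTP.rk_add (a := P₀) (b := Q - P₀) (p := P₀) (q := P₀) hP₀P₀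
        (by rw [mul_sub, hP₀Q, hP₀P₀, sub_self]) hP₀P₀
        (by rw [sub_mul, hQP₀, hP₀P₀, sub_self])
      rw [add_sub_cancel] at h1
      have h2 : 0 < MTP.rk P₀ := by
        rw [MTP.rk_pos]
        intro h3
        apply hU.ne
        rw [eq_bot_iff]
        intro u hu
        rw [← hP₀u u hu, h3]
        exact Submodule.zero_mem _
      omega
    obtain ⟨k, hk⟩ := ih (Q - P₀) (by omega)
      (by intro a ha; rw [sub_mul, mul_sub, hc a ha, hP₀c a ha])
      (by rw [sub_mul, mul_sub, mul_sub, hi, hQP₀, hP₀Q, hP₀P₀, sub_self, sub_zero])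
      (by rw [sub_mul, hQε, hP₀, mul_assoc, hQε])
    refine ⟨k + 1, fun x hx => ?_⟩
    obtain ⟨k1, k2⟩ := hk x hx
    obtain ⟨b1, b2⟩ := block_one hsi his (hxi x hx)
    have hdec : x * Q = x * P₀ + x * (Q - P₀) := by
      rw [← mul_add, add_sub_cancel]
    constructor
    · rw [hdec, map_add, k1, b1]
      push_cast
      ring
    · rw [hdec, MTP.rk_add (p := P₀) (q := P₀), k2, b2]
      · ring
      · rw [← mul_assoc, hP₀c x hx.1, mul_assoc, hP₀P₀]
      · rw [← mul_assoc, hP₀c x hx.1, mul_assoc, mul_sub, hP₀Q, hP₀P₀, sub_self, mul_zero]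
      · rw [mul_assoc, hP₀P₀]
      · rw [mul_assoc, sub_mul, hQP₀, hP₀P₀, sub_self, mul_zero]

end DAb

variable [IsAlgClosed K]

/-- The part `A ε` of the algebra is the full matrix algebra of `W`. -/
theorem SS.rs (h : SS (A : Set (Module.End K V))) (hε : Bl A ε)
    (hW : Irr (A : Set (Module.End K V)) W) (hWε : InB ε W) : Rs (Ae A ε) (Rw W) := by
  classical
  have hcoe : ∀ x ∈ A, ∀ w : W, ((Rw W x w : W) : V) = x w :=
    fun x hx w => Rw_coe (fun w hw => hW.st x hx w hw) w
  have hmult : ∃ k : ℕ, ∀ x ∈ Ae A ε,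
      LinearMap.trace K V x = k * LinearMap.trace K W (Rw W x) ∧
        MTP.rk x = k * MTP.rk (Rw W x) := by
    obtain ⟨k, hk⟩ := mult_aux h hε hW hWε (MTP.rk ε) ε le_rfl hε.cen hε.idem hε.idem
    refine ⟨k, fun x hx => ?_⟩
    have h1 := hk x hx
    rwa [hx.2] at h1
  obtain ⟨k, hk⟩ := hmult
  have hk0 : 0 < k := by
    rw [Nat.pos_iff_ne_zero]
    intro h0
    have h1 := (hk ε ⟨hε.mem, hε.idem⟩).2
    rw [h0, zero_mul, MTP.rk_eq_zero] at h1
    exact hε.ne h1
  refine ⟨?_, ?_, ?_, ?_, ⟨k, hk0, fun x hx => (hk x hx).1, fun x hx => (hk x hx).2⟩⟩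
  · intro x hx y hy
    exact ⟨A.mul_mem hx.1 hy.1, by rw [mul_assoc, hy.2]⟩
  · intro x hx y hy
    ext w
    rw [Module.End.mul_apply, hcoe _ (A.mul_mem hx.1 hy.1), hcoe _ hx.1, hcoe _ hy.1]
    rfl
  · intro x hx hx0
    have h1 := (hk x hx).2
    rw [hx0, MTP.rk_eq_zero.2 rfl, mul_zero, MTP.rk_eq_zero] at h1
    exact h1
  · intro φ
    have hsW := simple hW
    have : Nontrivial W := Submodule.nontrivial_iff_ne_bot.2 hW.ne
    -- Schur
    have hschur : ∀ T : (sub hW.st) →ₗ[A] (sub hW.st), ∃ μ : K, ∀ (v : V) (hv : v ∈ W),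
        ((T ⟨v, hv⟩ : sub hW.st) : V) = μ • v := by
      intro T
      let T' : Module.End K W :=
        { toFun := fun w => ⟨T ⟨w, w.2⟩, (T ⟨w, w.2⟩).2⟩
          map_add' := fun a b => Subtype.ext
            (congrArg Subtype.val (T.map_add ⟨a, a.2⟩ ⟨b, b.2⟩))
          map_smul' := fun c a => Subtype.ext
            (congrArg Subtype.val (T.map_smul (algebraMap K A c) ⟨a, a.2⟩)) }
      obtain ⟨μ, hμ⟩ := Module.End.exists_eigenvalue T'
      obtain ⟨w, hw⟩ := hμ.exists_hasEigenvector
      refine ⟨μ, ?_⟩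
      let U : Submodule K V :=
        { carrier := {v | ∃ hv : v ∈ W, ((T ⟨v, hv⟩ : sub hW.st) : V) = μ • v}
          add_mem' := by
            rintro a b ⟨ha, ha'⟩ ⟨hb, hb'⟩
            refine ⟨W.add_mem ha hb, ?_⟩
            have h1 := congrArg Subtype.val (T.map_add ⟨a, ha⟩ ⟨b, hb⟩)
            rw [smul_add, ← ha', ← hb']
            exact h1
          zero_mem' := by
            refine ⟨W.zero_mem, ?_⟩
            have h1 := congrArg Subtype.val T.map_zero
            rw [smul_zero]
            exact h1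
          smul_mem' := by
            rintro c a ⟨ha, ha'⟩
            refine ⟨W.smul_mem c ha, ?_⟩
            have h1 := congrArg Subtype.val (T.map_smul (algebraMap K A c) ⟨a, ha⟩)
            rw [smul_comm, ← ha']
            exact h1 }
      have hUst : Stab (A : Set (Module.End K V)) U := by
        rintro a ha v ⟨hv, hv'⟩
        refine ⟨hW.st a ha v hv, ?_⟩
        have h1 := congrArg Subtype.val (T.map_smul (⟨a, ha⟩ : A) ⟨v, hv⟩)
        have h2 : ((T ⟨a v, hW.st a ha v hv⟩ : sub hW.st) : V) =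
          a ((T ⟨v, hv⟩ : sub hW.st) : V) := h1
        rw [h2, hv', map_smul]
      have hUW : U = W := by
        rcases hW.irr U (fun v hv => hv.1) hUst with h1 | h1
        · exfalso
          have h2 : (w : V) ∈ U := ⟨w.2, congrArg Subtype.val hw.apply_eq_smul⟩
          rw [h1, Submodule.mem_bot] at h2
          exact hw.2 (Subtype.ext h2)
        · exact h1
      intro v hv
      have h2 : v ∈ U := by rw [hUW]; exact hv
      exact h2.2
    let F : Module.End (Module.End A (sub hW.st)) (sub hW.st) :=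
      { toFun := fun w => ⟨φ ⟨w, w.2⟩, (φ ⟨w, w.2⟩).2⟩
        map_add' := fun a b => Subtype.ext
          (congrArg Subtype.val (φ.map_add ⟨a, a.2⟩ ⟨b, b.2⟩))
        map_smul' := fun T w => by
          obtain ⟨μ, hμ⟩ := hschur T
          apply Subtype.ext
          have e1 : (⟨(T w : sub hW.st), (T w).2⟩ : W) = μ • ⟨w, w.2⟩ :=
            Subtype.ext (hμ w w.2)
          change ((φ (⟨(T w : sub hW.st), (T w).2⟩ : W) : W) : V) =
            ((T ⟨φ ⟨w, w.2⟩, (φ ⟨w, w.2⟩).2⟩ : sub hW.st) : V)
          rw [e1, map_smul, hμ]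
          rfl }
    let b := Module.finBasis K W
    obtain ⟨r, hr⟩ := jacobson_density F
      (Finset.univ.image (fun j => (⟨b j, (b j).2⟩ : sub hW.st)))
    refine ⟨r * ε, ⟨A.mul_mem r.2 hε.mem, by rw [mul_assoc, hε.idem]⟩, ?_⟩
    apply b.ext
    intro j
    apply Subtype.ext
    rw [hcoe _ (A.mul_mem r.2 hε.mem), Module.End.mul_apply, hWε _ (b j).2]
    have h1 := hr _ (Finset.mem_image_of_mem (fun j => (⟨b j, (b j).2⟩ : sub hW.st))
      (Finset.mem_univ j))
    exact (congrArg Subtype.val h1).symm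

end AV

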